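import Pool.Agent.Helper36.FST.Flv
import Pool.Agent.Helper55.INV.Dg
import Pool.Agent.Helper26.OUT.Wl

/-! ROW [LIMJ] of [FIRST]: slow limits of systems with full literal labels of windows `b j → 0`. -/

set_option autoImplicit false

namespace Pool.Agent.Helper36.FST

open Finset Filter Topology Matrix Pool.Agent.Helper69.RK Pool.Agent.Helper31.EC Pool.Agent.Helper31.EC.Sp
open Pool.Agent.Helper40.EL Pool.Agent.Helper89.LX Pool.Agent.Helper84.MT Pool.Agent.Helper49.MD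
open Pool.Agent.Helper36.AM
open Pool.Agent.Helper29.MX (Rsl rbot KAd KZ Okc)
open Pool.Agent.Helper15.FST (Ful JT NHb gam ROW_LIMJ)
open Pool.Agent.Helper26.OUT (WDs)

noncomputable section

variable {S T : Sp} {N D : ℕ} {E : ℕ → ℕ} {ι κ : Type}

/-! ### more predicates -/

/-- the trivial predicate -/
def apT (K : FK) : AP K where
  P := fun _ _ _ => True
  mono := fun _ _ _ _ _ _ => trivial

/-- bounded dimensions of the leaves -/
def dimA (N : ℕ) (ι : Type) (e0 : ℕ) : AP (KM N ι) where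
  P := fun F X _ => ∀ i, ((X : FMs F.Ω N ι).lf i).e ≤ e0
  mono := fun _ _ _ _ _ h => h

theorem dimA_iff {s : MSys S N E ι} {e0 : ℕ} : (dimA N ι e0).pd 0 S (ob s) ↔ ∀ i, (s.lf i).e ≤ e0 := by
  constructor
  · intro h
    obtain ⟨k, hk⟩ := (h 1 one_pos).exists
    exact hk
  · intro h δ _
    exact Eventually.of_forall fun k => h

theorem ofNat_surj (α : Type) [Denumerable α] (a : α) : ∃ i, Denumerable.ofNat α i = a :=
  ⟨Encodable.encode a, Denumerable.ofNat_encode a⟩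

/-- the point of `[0, 1]` next to the rational number with the number `i` -/
def rcl (i : ℕ) : ℝ := max 0 (min 1 ((Denumerable.ofNat ℚ i : ℚ) : ℝ))

theorem rcl_mem (i : ℕ) : 0 ≤ rcl i ∧ rcl i ≤ 1 := ⟨le_max_left _ _, max_le zero_le_one (min_le_left _ _)⟩

theorem exists_rcl {q : ℚ} (h0 : (0 : ℝ) ≤ q) (h1 : (q : ℝ) ≤ 1) : ∃ i, rcl i = q := by
  obtain ⟨i, hi⟩ := ofNat_surj ℚ q
  refine ⟨i, ?_⟩
  unfold rcl
  rw [hi, min_eq_right h1, max_eq_right h0]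

/-- bounds of the entropies of the cells at all real levels -/
theorem ent_all {s : MSys S N E ι} {f : ℝ → ℝ} (hf : ∀ b : ℝ, 0 ≤ b → b < 1 → ContinuousWithinAt f (Set.Ioi b) b)
    (h : ∀ i, (entA N ι (rcl i) (f (rcl i))).pd 0 S (ob s)) (p : Pj T S)
    (A : ∀ k, (T.F k).Ω → Prop) (hA : 0 < ul (T.pr A)) {b : ℝ} (hb : 0 ≤ b) (hb1 : b ≤ 1) :
    H ((s.im p A hA).Q.dg b) ≤ f b := by
  rcases eq_or_lt_of_le hb1 with rfl | hb2
  · obtain ⟨i, hi⟩ := exists_rcl (q := 1) (by norm_num) (by norm_num)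
    have h3 := entA_to (h i) p A hA
    rw [hi, Rat.cast_one] at h3
    exact h3
  · apply le_of_forall_pos_le_add
    intro η hη
    have h2 : ∀ᶠ y in 𝓝[>] b, f y < f b + η := (hf b hb hb2).tendsto.eventually (gt_mem_nhds (by linarith))
    have h3 : ∀ᶠ y in 𝓝[>] b, y ∈ Set.Ioo b 1 := Ioo_mem_nhdsGT hb2
    obtain ⟨u, hu, hu2⟩ := (mem_nhdsGT_iff_exists_Ioo_subset).mp (h2.and h3)
    obtain ⟨q, hq1, hq2⟩ := exists_rat_btwn (Set.mem_Ioi.mp hu)
    obtain ⟨h4, h5, h6⟩ := hu2 ⟨hq1, hq2⟩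
    obtain ⟨i, hi⟩ := exists_rcl (hb.trans hq1.le) h6.le
    have h7 := entA_to (h i) p A hA
    rw [hi] at h7
    have h8 : H ((s.im p A hA).Q.dg b) ≤ H ((s.im p A hA).Q.dg q) := H_mono ((s.im p A hA).Q.dg_mono hq1.le)
    linarith

/-- the predicates of transversality -/
def nhq (N : ℕ) (ι : Type) (f : ℝ → ℝ) (q : ℚ × ℚ × ℚ × ℕ) : AP (KM N ι) :=
  if h : (0 : ℝ) < q.1 then nhA N ι q.2.2.2 q.1 h (f q.1) q.2.1 q.2.2.1 else apT _

/-- admissible tuples -/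
def okq (q : ℚ × ℚ × ℚ × ℕ) : Prop := (q.1 : ℝ) ≤ 1 ∧ (0 : ℝ) < q.2.1 ∧ (0 : ℝ) < q.2.2.1

open Classical in
/-- the predicate of transversality with the number `i` -/
def nhi (N : ℕ) (ι : Type) (f : ℝ → ℝ) (i : ℕ) : AP (KM N ι) :=
  if okq (Denumerable.ofNat (ℚ × ℚ × ℚ × ℕ) i) then nhq N ι f (Denumerable.ofNat (ℚ × ℚ × ℚ × ℕ) i) else apT _

theorem apT_pd {K : FK} {ε : ℝ} {x : K.Ob S} : (apT K).pd ε S x := fun _ _ => Eventually.of_forall fun _ => trivial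

theorem nhi_of {s : MSys S N E ι} {f : ℝ → ℝ} {ε : ℝ} (h : ∀ b : ℝ, 0 < b → b ≤ 1 → NHb s (f b + ε) b) (i : ℕ) :
    (nhi N ι f i).pd ε S (ob s) := by
  unfold nhi
  split
  · rename_i hi
    unfold nhq
    split
    · rename_i h0
      exact nhA_of h0 hi.1 (h _ h0 hi.1) hi.2.1 hi.2.2
    · exact apT_pd
  · exact apT_pd

theorem nhi_to {s : MSys S N E ι} {f : ℝ → ℝ} (hf : ∀ b : ℝ, 0 ≤ b → b < 1 → ContinuousWithinAt f (Set.Ioi b) b)
    (h : ∀ i, (nhi N ι f i).pd 0 S (ob s)) {b : ℝ} (h0 : 0 < b) : NHb s (f b) b := by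
  intro h0' h1 D
  refine nhA_to (X := ob s) (Eventually.of_forall fun _ => rfl) h0' h1 (fun hb => hf b h0.le hb) ?_
  intro b' e p hb hb1 he hp
  obtain ⟨i, hi⟩ := ofNat_surj (ℚ × ℚ × ℚ × ℕ) (b', e, p, D)
  have h2 := h i
  unfold nhi at h2
  rw [hi, if_pos (show okq (b', e, p, D) from ⟨hb1, he, hp⟩)] at h2
  unfold nhq at h2
  rw [dif_pos (show (0 : ℝ) < ((b', e, p, D) : ℚ × ℚ × ℚ × ℕ).1 from hb)] at h2
  exact h2

/-! ### the limit -/

/-- the members of the sequence, error `ε` -/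
structure LJ (C : MCl N) (v g r e0 D : ℕ) (E : Fin N → ℝ) (d ε : ℝ) (S : Sp) (s : MSys S N (lin g) (Fin r)) : Prop where
  cl : C S g r s
  inv : Pool.Agent.Helper29.MX.Inv v s
  pol : WDs (fun _ => (g : ℝ)) s
  dim : (dimA N (Fin r) e0).pd 0 S (ob s)
  ent : ∀ i, (entA N (Fin r) (rcl i) (N * rcl i - gam E (rcl i))).pd ε S (ob s)
  dfc : (entA N (Fin r) 1 (N - gam E 1 - d)).pd ε S (ob s)
  nh : ∀ i, (nhi N (Fin r) (gam E) i).pd ε S (ob s)
  ful : (fulV N D (Fin r)).pd ε S (ob s)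

theorem lj_dg {C : MCl N} {v g r e0 D : ℕ} {E : Fin N → ℝ} {d : ℝ}
    (hC : DiagCl (lft fun S (s : MSys S N (lin g) (Fin r)) => C S g r s)) {ε : ℕ → ℝ} (hε : Tendsto ε atTop (𝓝 0)) :
    DiagTo (fun j => lft (LJ C v g r e0 D E d (ε j))) (lft (LJ C v g r e0 D E d 0)) := by
  have hw : ∀ _ : Fin N, (0 : ℝ) ≤ (g : ℝ) := fun _ => Nat.cast_nonneg _
  have h0 := Pool.Agent.Helper26.OUT.DiagCl.wd (w := fun _ => (g : ℝ)) hw
    (Pool.Agent.Helper55.INV.and_inv_dg hC v)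
  have hz : Tendsto (fun _ : ℕ => (0 : ℝ)) atTop (𝓝 0) := tendsto_const_nhds
  have h1 : DiagTo (fun j => lft (LJ C v g r e0 D E d (ε j)))
      (lft fun S (s : MSys S N (lin g) (Fin r)) => (C S g r s ∧ Pool.Agent.Helper29.MX.Inv v s) ∧
        WDs (fun _ => (g : ℝ)) s) :=
    DiagTo.mono h0 (fun j S X ⟨s, hs, h⟩ => ⟨s, hs, ⟨h.cl, h.inv⟩, h.pol⟩) fun _ _ h => h
  have h2 := lft_ap hz h1 (dimA N (Fin r) e0) fun j S s h => h.dim
  have h3 := lft_aps hε h2 _ fun i j S s h => h.ent i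
  have h4 := lft_ap hε h3 _ fun j S s h => h.dfc
  have h5 := lft_aps hε h4 _ fun i j S s h => h.nh i
  have h6 := lft_ap hε h5 _ fun j S s h => h.ful
  refine h6.mono (fun _ _ _ h => h) ?_
  rintro S X ⟨s, hs, ⟨⟨⟨⟨⟨⟨a1, a2⟩, a3⟩, a4⟩, a5⟩, a6⟩, a7⟩, a8⟩
  exact ⟨s, hs, a1, a2, a3, a4, a5, a6, a7, a8⟩

theorem gam_cont (E : Fin N → ℝ) : Continuous (gam E) := by
  unfold gam
  exact continuous_finsetSum _ fun i _ => continuous_const.min continuous_id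

/-- **ROW [LIMJ]** -/
theorem row_limj (N : ℕ) : ROW_LIMJ N := by
  intro A C hok _ v m g r e0 D E d b ε _ _ hb hb0 hε hε0 S t V hC hI hdim hpol hent hnh hful
  set ε' : ℕ → ℝ := fun j => ε j + lin g 0 * b j with he
  have hε' : Tendsto ε' atTop (𝓝 0) := by
    have := hε0.add (hb0.const_mul (lin g 0 : ℝ))
    rwa [mul_zero, add_zero] at this
  have hle : ∀ j, ε j ≤ ε' j := fun j => by
    have h1 : (0 : ℝ) ≤ lin g 0 * b j := mul_nonneg (Nat.cast_nonneg _) (hb j).1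
    rw [he]
    simp only
    linarith
  have h1 : ∀ j, lft (LJ (C m) v g r e0 D E d (ε' j)) (S j) (ob (t j)) := fun j =>
    ⟨t j, Eventually.of_forall fun _ => rfl, hC j, hI j, hpol j, dimA_iff.mpr (hdim j),
      fun i => AP.pd_mono _ (hle j) (entA_of (hε j) fun T p A hA => (hent j T p A hA).2 _ (rcl_mem i).1 (rcl_mem i).2),
      AP.pd_mono _ (hle j) (entA_of (hε j) fun T p A hA => (hent j T p A hA).1),
      fun i => AP.pd_mono _ (hle j) (nhi_of (hnh j) i), fulV_of (hb j).1 (hε j) (hful j)⟩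
  obtain ⟨F, hF, h2⟩ := lj_dg (v := v) (e0 := e0) (D := D) (E := E) (d := d) (hok.dg m g r) hε' S (fun j => ob (t j)) h1
  obtain ⟨J, hJ⟩ := exists_slo S F hF
  obtain ⟨s, hs, h3⟩ := h2 J hJ
  obtain ⟨V', hV'⟩ := fulV_to (s := s) (Eventually.of_forall fun _ => rfl) h3.ful
  have hc := gam_cont E
  refine ⟨_, s, V', ⟨h3.cl, h3.inv, dimA_iff.mp h3.dim, h3.pol, ?_, ?_, ?_⟩, hV'⟩
  · intro T p A hA b hb hb1
    exact ent_all (f := fun b => N * b - gam E b) (fun b _ _ => by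
      have : Continuous fun b : ℝ => (N : ℝ) * b - gam E b := by fun_prop
      exact this.continuousWithinAt) h3.ent p A hA hb hb1
  · intro T p A hA
    exact entA_to h3.dfc p A hA
  · intro b hb _
    exact nhi_to (fun b _ _ => hc.continuousWithinAt) h3.nh hb

end

end Pool.Agent.Helper36.FST
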