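import Pool.Agent.Helper36.FST.Ful

/-! LIMITS OF CLASSES OF SYSTEMS with approximate finite predicates; bounds of entropies of cells on all events. -/

set_option autoImplicit false

namespace Pool.Agent.Helper36.FST

open Finset Filter Topology Matrix Pool.Agent.Helper69.RK Pool.Agent.Helper31.EC Pool.Agent.Helper31.EC.Sp
open Pool.Agent.Helper40.EL Pool.Agent.Helper89.LX Pool.Agent.Helper84.MT Pool.Agent.Helper49.MD
open Pool.Agent.Helper3.LF
open Pool.Agent.Helper63.SCN (evA evA_of evA_to)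

noncomputable section

variable {S T : Sp} {N D : ℕ} {E : ℕ → ℕ} {ι : Type}

/-- an approximate predicate along the limit of a class of systems -/
theorem lft_ap {ε : ℕ → ℝ} (hε : Tendsto ε atTop (𝓝 0)) {C : ℕ → ∀ S : Sp, MSys S N E ι → Prop}
    {C' : ∀ S : Sp, MSys S N E ι → Prop} (h : DiagTo (fun j => lft (C j)) (lft C')) (A : AP (KM N ι))
    (hA : ∀ j S s, C j S s → A.pd (ε j) S (ob s)) :
    DiagTo (fun j => lft (C j)) (lft fun S s => C' S s ∧ A.pd 0 S (ob s)) := by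
  refine (h.and (A.diagTo hε)).mono ?_ ?_
  · rintro j S X ⟨s, hs, hC⟩
    exact ⟨⟨s, hs, hC⟩, A.inv (ε j) S (ob s) X hs (hA j S s hC)⟩
  · rintro S X ⟨⟨s, hs, hC⟩, hx⟩
    exact ⟨s, hs, hC, A.inv 0 S X (ob s) (hs.mono fun _ h => h.symm) hx⟩

/-- countably many approximate predicates -/
theorem lft_aps {ε : ℕ → ℝ} (hε : Tendsto ε atTop (𝓝 0)) {C : ℕ → ∀ S : Sp, MSys S N E ι → Prop}
    {C' : ∀ S : Sp, MSys S N E ι → Prop} (h : DiagTo (fun j => lft (C j)) (lft C')) (A : ℕ → AP (KM N ι))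
    (hA : ∀ q j S s, C j S s → (A q).pd (ε j) S (ob s)) :
    DiagTo (fun j => lft (C j)) (lft fun S s => C' S s ∧ ∀ q, (A q).pd 0 S (ob s)) := by
  refine (h.and (DiagTo.all fun q => (A q).diagTo hε)).mono ?_ ?_
  · rintro j S X ⟨s, hs, hC⟩
    exact ⟨⟨s, hs, hC⟩, fun q => (A q).inv (ε j) S (ob s) X hs (hA q j S s hC)⟩
  · rintro S X ⟨⟨s, hs, hC⟩, hx⟩
    exact ⟨s, hs, hC, fun q => (A q).inv 0 S X (ob s) (hs.mono fun _ h => h.symm) (hx q)⟩

/-! ### entropies of cells -/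

/-- the entropy of the cells of level `b` -/
def hcl (F : FSp) (b : ℝ) (Q : F.Ω → Fin N → ℝ) : ℝ := H (fc (Setoid.ker fun ω => cell (dlF F b) (Q ω)) : FL F) / F.n

theorem hcl_eq (Q : S.VV N) (b : ℝ) : UB (fun k => hcl (S.F k) b (Q.v k)) ∧
    H (Q.dg b) = ul (fun k => hcl (S.F k) b (Q.v k)) := by
  have e1 : S.rt (Q.bdd b).toInf.1 S.tr = fun k => hcl (S.F k) b (Q.v k) := by
    funext k
    unfold hcl
    rw [H_fc]
    show (S.F k).e (Setoid.ker (Q.cellv b k)) (⊤ ⊓ (S.F k).Z) / (S.F k).n = _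
    rw [top_inf_eq]
    rfl
  have e0 : Q.dg b = cl (Q.bdd b).toInf := io_eq (Q.bdd b)
  constructor
  · rw [← e1]
    exact UB_rt (S := S) (Q.bdd b).toInf S.tr
  · rw [← e1, ← H_cl, ← e0]

/-- upper bounds of the entropy of the cells of level `b` on all events of all extensions -/
def entA (N : ℕ) (ι : Type) (b c : ℝ) : AP (KM N ι) := evA (fun F (X : FMs F.Ω N ι) => hcl F b X.Q) c

theorem entA_of {s : MSys S N E ι} {b c ε : ℝ} (hε : 0 ≤ ε)
    (h : ∀ (T : Sp) (p : Pj T S) (A : ∀ k, (T.F k).Ω → Prop) (hA : 0 < ul (T.pr A)),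
      H ((s.im p A hA).Q.dg b) ≤ c + ε) : (entA N ι b c).pd ε S (ob s) := by
  refine evA_of hε fun T p A hA => ?_
  obtain ⟨h1, h2⟩ := hcl_eq (s.im p A hA).Q b
  have h3 := h T p A hA
  rw [h2] at h3
  exact ⟨h1, h3⟩

theorem entA_to {s : MSys S N E ι} {b c : ℝ} (h : (entA N ι b c).pd 0 S (ob s)) (p : Pj T S)
    (A : ∀ k, (T.F k).Ω → Prop) (hA : 0 < ul (T.pr A)) : H ((s.im p A hA).Q.dg b) ≤ c := by
  obtain ⟨h1, h2⟩ := hcl_eq (s.im p A hA).Q b
  rw [h2]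
  exact evA_to h p A hA h1

end

end Pool.Agent.Helper36.FST
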