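import Pool.Agent.Helper36.FST.Nh

/-! FULL LITERAL LABELS as an approximate finite predicate. -/

set_option autoImplicit false

namespace Pool.Agent.Helper36.FST

open Finset Filter Topology Matrix Pool.Agent.Helper69.RK Pool.Agent.Helper31.EC Pool.Agent.Helper31.EC.Sp
open Pool.Agent.Helper40.EL Pool.Agent.Helper89.LX Pool.Agent.Helper84.MT Pool.Agent.Helper49.MD
open Pool.Agent.Helper3.LF
open Pool.Agent.Helper14.MC (vx vol_eq vx_UB)
open Pool.Agent.Helper29.MX (Rsl rbot KAd KZ)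
open Pool.Agent.Helper87.NSL (cndR)
open Pool.Agent.Helper15.FST (Ful)

noncomputable section

variable {S T : Sp} {N D : ℕ} {E : ℕ → ℕ} {ι κ : Type}

/-- a literal label of a finite space -/
def fz (F : FSp) (V : Setoid F.Ω) : FLab F := ⟨(FLab.triv F).T, (FLab.triv F).p, (FLab.triv F).hn, V⟩

theorem ofZ_fz (V : Rsl S) (k : ℕ) : (Lab.ofZ V) k = fz (S.F k) (V k) := rfl

/-- `a literal label of the windows 0 of the types, with a form of degree D, over which the point fills the volume`, up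
to `δ` -/
def fulV (N D : ℕ) (ι : Type) : AP (KM N ι) where
  P := fun F X δ => ∃ x : FD F (Mon N D), (∃ V : Setoid F.Ω, x.l = fz F V) ∧
    FAd D F (X : FMs F.Ω N ι).Q (fun i => ((X : FMs F.Ω N ι).lf i).win F 0) δ x ∧
    (N : ℝ) ≤ fvx F (X : FMs F.Ω N ι).Q x + fhq F (X : FMs F.Ω N ι).Q x.l + δ
  mono := fun _ _ _ _ h hx => hx.imp fun _ hy => ⟨hy.1, hy.2.1.mono h, by linarith [hy.2.2]⟩

/-- admissible forms over K-labels are admissible for the types -/
theorem KAd.win {s : MSys S N E ι} {R : Rsl S} {c : ℝ} {x : ∀ k, FD (S.F k) (Mon N D)} (h : KAd s R D c x) :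
    (gaq s.Q D).Adf (fun i => (s.lf i).win c) x := by
  intro η hη
  filter_upwards [h.1 η hη] with k hk
  exact ⟨fun i => hk.1 (some i), hk.2⟩

/-- admissible forms over literal labels of the types are forms over K-labels of the finest resolution -/
theorem kad_of_lit {s : MSys S N E ι} {c : ℝ} {x : ∀ k, FD (S.F k) (Mon N D)} {V : Rsl S}
    (hV : ∀ᶠ k in UF, (x k).l = Lab.ofZ V k) (h : (gaq s.Q D).Adf (fun i => (s.lf i).win c) x) :
    KAd s (rbot S) D c x := by
  have h0 : ∀ᶠ k in UF, (x k).l.leak (fc (⊥ : Setoid (S.F k).Ω)) = 0 := by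
    filter_upwards [hV] with k hk
    rw [hk]
    have e1 := Lab.ofZ_leak V (fun k => fc (⊥ : Setoid (S.F k).Ω)) k
    rw [e1]
    exact h_zero (fc_mono bot_le)
  refine ⟨?_, h0⟩
  intro η hη
  filter_upwards [h η hη, h0] with k hk h1
  refine ⟨fun o => ?_, hk.2⟩
  cases o with
  | none =>
    show (x k).l.leak (fc (⊥ : Setoid (S.F k).Ω)) ≤ η * (S.F k).n
    rw [h1]
    exact mul_nonneg hη.le (S.F k).pos.le
  | some i => exact hk.1 i

/-- a full literal label of the window `b` gives the finite predicate up to `ε + E 0 * b` -/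
theorem fulV_of [Finite ι] {s : MSys S N E ι} {b : ℝ} (hb : 0 ≤ b) {ε : ℝ} (hε : 0 ≤ ε) {V : Rsl S}
    (h : Ful s D b ε V) : (fulV N D ι).pd (ε + E 0 * b) S (ob s) := by
  obtain ⟨x, hV, hx0, hv⟩ := h
  have hx := KAd.win hx0
  intro δ hδ
  have hE : (0 : ℝ) ≤ E 0 * b := mul_nonneg (Nat.cast_nonneg _) hb
  have hε' : 0 < (δ - (ε + E 0 * b)) / 2 := by linarith
  set η : ℝ := (δ - (ε + E 0 * b)) / 2 with hη
  have e0 : (Lab.ofZ V : Lab S) = lb x := funext fun k => (hV k).symm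
  rw [e0] at hv
  obtain ⟨h1, h2⟩ := fhq_UB s.Q (lb x)
  rw [h2, vol_eq] at hv
  have h3 := vx_UB hx
  have h4 : (N : ℝ) - ε - η < ul (fun k => vx s.Q x k + fhq (S.F k) (s.Q.v k) ((lb x) k)) := by
    rw [ul_add h3 h1]
    linarith
  have h5 := eventually_gt_of_lt_ul (h3.add h1) h4
  have h6 : ∀ᶠ k in UF, ∀ i : ι, ∀ l : FLab (S.F k), l.leak ((s.lf i).win 0 k) ≤
      l.leak ((s.lf i).win b k) + (E 0 * (b - 0) + η) * (S.F k).n := by
    rw [eventually_all]
    exact fun i => Pool.Agent.Helper91.RAT.leak_win s (some i) hb hε'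
  filter_upwards [h5, h6, hx η hε'] with k a c d
  have h7 : FAd D (S.F k) (s.Q.v k) (fun i => (s.lf i).win b k) η (x k) := d
  have h8 := h7.mono (show η ≤ δ by linarith)
  refine ⟨x k, ⟨V k, hV k⟩, ⟨fun i => ?_, d.2.1, h8.2.2.1, h8.2.2.2⟩, ?_⟩
  · refine (c i (x k).l).trans ?_
    have h9 : (x k).l.leak ((s.lf i).win b k) ≤ η * (S.F k).n := d.1 i
    have h10 : (E 0 * (b - 0) + η) * (S.F k).n + η * (S.F k).n ≤ δ * (S.F k).n := by
      rw [← add_mul]
      refine mul_le_mul_of_nonneg_right ?_ (S.F k).pos.le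
      rw [sub_zero]
      linarith
    linarith
  · have h9 : (N : ℝ) - ε - η < fvx (S.F k) (s.Q.v k) (x k) + fhq (S.F k) (s.Q.v k) (x k).l := a
    show (N : ℝ) ≤ fvx (S.F k) (s.Q.v k) (x k) + fhq (S.F k) (s.Q.v k) (x k).l + δ
    linarith

/-- and back, for `ε = 0` -/
theorem fulV_to {s : MSys S N E ι} {X : (KM N ι).Ob S} (hX : ∀ᶠ k in UF, ob s k = X k)
    (h : (fulV N D ι).pd 0 S X) : ∃ V : Rsl S, Ful s D 0 0 V := by
  classical
  set P : ℕ → ∀ k, FD (S.F k) (Mon N D) → Prop := fun j k x => (∃ V : Setoid (S.F k).Ω, x.l = fz (S.F k) V) ∧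
    FAd D (S.F k) (s.Q.v k) (fun i => (s.lf i).win 0 k) (1 / ((j : ℝ) + 1)) x ∧
      (N : ℝ) ≤ fvx (S.F k) (s.Q.v k) x + fhq (S.F k) (s.Q.v k) x.l + 1 / ((j : ℝ) + 1) with hP
  have h0 : ∀ j : ℕ, ∀ᶠ k in UF, ∃ x : FD (S.F k) (Mon N D), P j k x := by
    intro j
    filter_upwards [h (1 / ((j : ℝ) + 1)) (by positivity), hX] with k a b
    rw [← b] at a
    exact a
  obtain ⟨J, hJ, hJ2⟩ := dia _ h0
  set x : ∀ k, FD (S.F k) (Mon N D) := fun k => if hk : ∃ x : FD (S.F k) (Mon N D), P (J k) k x then hk.choose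
      else trivFD (S.F k) with hx
  have h1 : ∀ᶠ k in UF, P (J k) k (x k) := by
    filter_upwards [hJ2] with k hk
    have hk' := hk (J k) le_rfl
    have e : x k = hk'.choose := by
      rw [hx]
      exact dif_pos hk'
    rw [e]
    exact hk'.choose_spec
  have h10 : ∀ k, ∃ V : Setoid (S.F k).Ω, (x k).l = fz (S.F k) V := by
    intro k
    by_cases hk : ∃ x : FD (S.F k) (Mon N D), P (J k) k x
    · have e : x k = hk.choose := by
        rw [hx]
        exact dif_pos hk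
      rw [e]
      exact hk.choose_spec.1
    · have e : x k = trivFD (S.F k) := by
        rw [hx]
        exact dif_neg hk
      rw [e]
      exact ⟨(FLab.triv (S.F k)).V, rfl⟩
  choose V hV using h10
  have ht := inv_tendsto hJ
  have hA : (gaq s.Q D).Adf (fun i => (s.lf i).win 0) x := by
    intro η hη
    filter_upwards [h1, ht.eventually (gt_mem_nhds hη)] with k a b
    exact a.2.1.mono b.le
  have e0 : (Lab.ofZ V : Lab S) = lb x := funext fun k => (hV k).symm
  refine ⟨V, x, hV, kad_of_lit (V := V) (Eventually.of_forall hV) hA, ?_⟩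
  rw [e0]
  obtain ⟨h2, h3⟩ := fhq_UB s.Q (lb x)
  have h4 := vx_UB hA
  rw [h3, vol_eq]
  have h5 : (N : ℝ) ≤ ul (fun k => vx s.Q x k + fhq (S.F k) (s.Q.v k) ((lb x) k)) := by
    have h6 : Tendsto (fun k => (N : ℝ) - 1 / ((J k : ℝ) + 1)) UF (𝓝 N) := by
      have := ht.const_sub (N : ℝ)
      rwa [sub_zero] at this
    refine le_of_tendsto_of_tendsto h6 (ul_tendsto (h4.add h2)) ?_
    filter_upwards [h1] with k hk
    have h7 : (N : ℝ) ≤ fvx (S.F k) (s.Q.v k) (x k) + fhq (S.F k) (s.Q.v k) (x k).l + 1 / ((J k : ℝ) + 1) := hk.2.2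
    show (N : ℝ) - 1 / ((J k : ℝ) + 1) ≤ fvx (S.F k) (s.Q.v k) (x k) + fhq (S.F k) (s.Q.v k) (x k).l
    linarith
  rw [ul_add h4 h2] at h5
  linarith

end

end Pool.Agent.Helper36.FST
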