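import Pool.Agent.Helper49.MD.Lim
import Pool.Agent.Helper14.MC.Cnt
import Pool.Agent.Helper14.MC.Vopt
import Pool.Agent.Helper89.RAD.Rd
import Pool.Agent.Helper63.SCN.Dg

/-! LIMITS OF SYSTEMS WITH A FULL LABEL: `a label without leak at the windows 0 of the types (up to `ε n`), with a form of
degree `D`, the volume of which is at most the entropy of the point over the label (up to `ε n`)` is an approximate finite
predicate; so it passes to (slow) diagonals with `ε j → 0`. Labels of the windows `b j → 0` are of this kind. -/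

set_option autoImplicit false

namespace Pool.Agent.Helper36.FST

open Finset Filter Topology Matrix Pool.Agent.Helper69.RK Pool.Agent.Helper31.EC Pool.Agent.Helper31.EC.Sp
open Pool.Agent.Helper40.EL Pool.Agent.Helper89.LX Pool.Agent.Helper84.MT Pool.Agent.Helper49.MD
open Pool.Agent.Helper3.LF
open Pool.Agent.Helper14.MC (vx vol_eq vx_UB)

noncomputable section

variable {S T : Sp} {N D : ℕ} {E : ℕ → ℕ} {ι : Type}

/-! ### finite numbers -/

/-- the cells of level 1 -/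
def pcF (F : FSp) (Q : F.Ω → Fin N → ℝ) : FL F := fc (Setoid.ker fun ω => cell (dlF F 1) (Q ω))

/-- a form of degree `D` is admissible up to `η` -/
def FAd (D : ℕ) (F : FSp) (Q : F.Ω → Fin N → ℝ) {κ : Type} (A : κ → FL F) (η : ℝ) (x : FD F (Mon N D)) : Prop :=
  (∀ i, x.l.leak (A i) ≤ η * F.n) ∧
  (∀ ω, x.l.T.μ ω ≠ 0 → Cpd (2 ^ (((2 * (D : ℝ) + 1) + 1) * F.n)) (x.g ω) ∧
    Cpd (2 ^ (((2 * (D : ℝ) + 1) + 1) * F.n)) (x.g' ω)) ∧
  x.l.T.pb (fun ω => ¬ phi (dlF F 1) (x.g ω) (Q (x.l.p.π ω)) ≤ 2 ^ (η * F.n)) ≤ η ∧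
  x.l.T.pb (fun ω => ¬ phi (dlF F 1) (x.g' ω) (Q (x.l.p.π ω)) ≤ 2 ^ (η * F.n)) ≤ η

/-- the average exponent of a form -/
def fvx (F : FSp) (Q : F.Ω → Fin N → ℝ) (x : FD F (Mon N D)) : ℝ :=
  ∑ ω, x.l.T.μ ω * (Real.logb 2 (GQ (dlF F 1) (x.g ω) (Q (x.l.p.π ω))) / (2 * F.n))

/-- the entropy of the point over a label -/
def fhq (F : FSp) (Q : F.Ω → Fin N → ℝ) (l : FLab F) : ℝ := h (l.p.map (pcF F Q)) l.v / F.n

theorem FAd_iff (Q : S.VV N) {κ : Type} (A : κ → Part S) (η : ℝ) (k : ℕ) (x : FD (S.F k) (Mon N D)) :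
    (gaq Q D).Admf A η k x ↔ FAd D (S.F k) (Q.v k) (fun i => A i k) η x := Iff.rfl

theorem fvx_eq (Q : S.VV N) (x : ∀ k, FD (S.F k) (Mon N D)) (k : ℕ) : vx Q x k = fvx (S.F k) (Q.v k) (x k) := rfl

theorem FAd.mono {F : FSp} {Q : F.Ω → Fin N → ℝ} {κ : Type} {A : κ → FL F} {η η' : ℝ} (h : η ≤ η')
    {x : FD F (Mon N D)} (hx : FAd D F Q A η x) : FAd D F Q A η' x := by
  have hn := F.pos
  have h1 : η * F.n ≤ η' * F.n := mul_le_mul_of_nonneg_right h hn.le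
  have h2 : (2 : ℝ) ^ (η * F.n) ≤ 2 ^ (η' * F.n) :=
    Real.rpow_le_rpow_of_exponent_le (by norm_num) h1
  refine ⟨fun i => (hx.1 i).trans h1, hx.2.1, ?_, ?_⟩
  · refine le_trans (x.l.T.pb_mono ?_) (hx.2.2.1.trans h)
    intro ω _ h3 h4
    exact h3 (h4.trans h2)
  · refine le_trans (x.l.T.pb_mono ?_) (hx.2.2.2.trans h)
    intro ω _ h3 h4
    exact h3 (h4.trans h2)

/-- the entropy of the point over a label as a limit of finite numbers -/
theorem fhq_UB (Q : S.VV N) (l : Lab S) : UB (fun k => fhq (S.F k) (Q.v k) (l k)) ∧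
    H (up1 l (Q.dg 1)) = ul (fun k => fhq (S.F k) (Q.v k) (l k)) := by
  have e : Q.dg 1 = cl (Q.bdd 1).toInf := io_eq (Q.bdd 1)
  have e2 : H (up1 l (Q.dg 1)) = ul (fun k => fhq (S.F k) (Q.v k) (l k)) := by
    rw [e, H_up1_cl]
    rfl
  refine ⟨?_, e2⟩
  obtain ⟨C, hC⟩ := pcd_Bd Q
  refine UB.sandwich (UB_const 0) (UB_const C) (Eventually.of_forall fun k => ?_) ?_
  · exact div_nonneg (h_nonneg _ _) (S.F k).pos.le
  · filter_upwards [hC] with k hk
    rw [fhq, div_le_iff₀ (S.F k).pos]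
    have h1 : h ((l k).p.map (pcF (S.F k) (Q.v k))) (l k).v ≤ H ((l k).p.map (pcF (S.F k) (Q.v k))) := h_le_H _ _
    rw [(l k).p.H_map] at h1
    have h2 : H (pcF (S.F k) (Q.v k)) / (S.F k).n ≤ C := (le_abs_self _).trans hk
    rw [div_le_iff₀ (S.F k).pos] at h2
    exact h1.trans h2

/-! ### the finite predicate -/

/-- `a label of the windows 0 of the types, with a form of degree D and of volume at most N - G, over which the point fills
the volume`, up to `δ` -/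
def fulA (N D : ℕ) (G : ℝ) (ι : Type) : AP (KM N ι) where
  P := fun F X δ => ∃ x : FD F (Mon N D), FAd D F (X : FMs F.Ω N ι).Q (fun i => ((X : FMs F.Ω N ι).lf i).win F 0) δ x ∧
    (N : ℝ) ≤ fvx F (X : FMs F.Ω N ι).Q x + fhq F (X : FMs F.Ω N ι).Q x.l + δ ∧ G ≤ fvx F (X : FMs F.Ω N ι).Q x + δ
  mono := fun _ _ _ _ h hx => hx.imp fun _ hy => ⟨hy.1.mono h, by linarith [hy.2.1], by linarith [hy.2.2]⟩

/-- a full label of the window `b` gives the finite predicate up to `ε + E 0 * b` -/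
theorem fulA_of [Finite ι] {s : MSys S N E ι} {b : ℝ} (hb : 0 ≤ b) {x : ∀ k, FD (S.F k) (Mon N D)}
    (hx : (gaq s.Q D).Adf (fun i => (s.lf i).win b) x) {G ε : ℝ} (hε : 0 ≤ ε)
    (hv : vol s.Q D x ≤ H (up1 (lb x) (s.Q.dg 1)) + ε) (hG : vol s.Q D x ≤ N - G + ε) :
    (fulA N D G ι).pd (ε + E 0 * b) S (ob s) := by
  intro δ hδ
  have hE : (0 : ℝ) ≤ E 0 * b := mul_nonneg (Nat.cast_nonneg _) hb
  have hε' : 0 < (δ - (ε + E 0 * b)) / 2 := by linarith
  set η : ℝ := (δ - (ε + E 0 * b)) / 2 with hη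
  obtain ⟨h1, h2⟩ := fhq_UB s.Q (lb x)
  rw [h2, vol_eq] at hv
  rw [vol_eq] at hG
  have h3 := vx_UB hx
  have h4 : (N : ℝ) - ε - η < ul (fun k => vx s.Q x k + fhq (S.F k) (s.Q.v k) ((lb x) k)) := by
    rw [ul_add h3 h1]
    linarith
  have h5 := eventually_gt_of_lt_ul (h3.add h1) h4
  have h50 := eventually_gt_of_lt_ul h3 (show G - ε - η < ul (fun k => vx s.Q x k) by linarith)
  have h6 : ∀ᶠ k in UF, ∀ i : ι, ∀ l : FLab (S.F k), l.leak ((s.lf i).win 0 k) ≤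
      l.leak ((s.lf i).win b k) + (E 0 * (b - 0) + η) * (S.F k).n := by
    rw [eventually_all]
    exact fun i => Pool.Agent.Helper91.RAT.leak_win s (some i) hb hε'
  filter_upwards [h5, h50, h6, hx η hε'] with k a a' c d
  refine ⟨x k, ⟨fun i => ?_, d.2.1, ?_, ?_⟩, ?_, ?_⟩
  · refine (c i (x k).l).trans ?_
    have h7 : (x k).l.leak ((s.lf i).win b k) ≤ η * (S.F k).n := d.1 i
    have h8 : (E 0 * (b - 0) + η) * (S.F k).n + η * (S.F k).n ≤ δ * (S.F k).n := by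
      rw [← add_mul]
      refine mul_le_mul_of_nonneg_right ?_ (S.F k).pos.le
      rw [sub_zero]
      linarith
    linarith
  · have h7 : FAd D (S.F k) (s.Q.v k) (fun i => (s.lf i).win b k) η (x k) := d
    exact (h7.mono (show η ≤ δ by linarith)).2.2.1
  · have h7 : FAd D (S.F k) (s.Q.v k) (fun i => (s.lf i).win b k) η (x k) := d
    exact (h7.mono (show η ≤ δ by linarith)).2.2.2
  · have h7 : (N : ℝ) - ε - η < fvx (S.F k) (s.Q.v k) (x k) + fhq (S.F k) (s.Q.v k) (x k).l := a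
    show (N : ℝ) ≤ fvx (S.F k) (s.Q.v k) (x k) + fhq (S.F k) (s.Q.v k) (x k).l + δ
    linarith
  · have h7 : G - ε - η < fvx (S.F k) (s.Q.v k) (x k) := a'
    show G ≤ fvx (S.F k) (s.Q.v k) (x k) + δ
    linarith

/-- and back, for `ε = 0` -/
theorem fulA_to {s : MSys S N E ι} {X : (KM N ι).Ob S} (hX : ∀ᶠ k in UF, ob s k = X k) {G : ℝ}
    (h : (fulA N D G ι).pd 0 S X) : ∃ x : ∀ k, FD (S.F k) (Mon N D), (gaq s.Q D).Adf (fun i => (s.lf i).win 0) x ∧
      vol s.Q D x ≤ H (up1 (lb x) (s.Q.dg 1)) ∧ vol s.Q D x ≤ N - G := by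
  classical
  have h0 : ∀ j : ℕ, ∀ᶠ k in UF, ∃ x : FD (S.F k) (Mon N D),
      FAd D (S.F k) (s.Q.v k) (fun i => (s.lf i).win 0 k) (1 / ((j : ℝ) + 1)) x ∧
        (N : ℝ) ≤ fvx (S.F k) (s.Q.v k) x + fhq (S.F k) (s.Q.v k) x.l + 1 / ((j : ℝ) + 1) ∧
          G ≤ fvx (S.F k) (s.Q.v k) x + 1 / ((j : ℝ) + 1) := by
    intro j
    filter_upwards [h (1 / ((j : ℝ) + 1)) (by positivity), hX] with k a b
    rw [← b] at a
    exact a
  obtain ⟨J, hJ, hJ2⟩ := dia _ h0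
  set x : ∀ k, FD (S.F k) (Mon N D) := fun k => if hk : ∃ x : FD (S.F k) (Mon N D),
      FAd D (S.F k) (s.Q.v k) (fun i => (s.lf i).win 0 k) (1 / ((J k : ℝ) + 1)) x ∧
        (N : ℝ) ≤ fvx (S.F k) (s.Q.v k) x + fhq (S.F k) (s.Q.v k) x.l + 1 / ((J k : ℝ) + 1) ∧
          G ≤ fvx (S.F k) (s.Q.v k) x + 1 / ((J k : ℝ) + 1) then hk.choose
      else trivFD (S.F k) with hx
  have h1 : ∀ᶠ k in UF, FAd D (S.F k) (s.Q.v k) (fun i => (s.lf i).win 0 k) (1 / ((J k : ℝ) + 1)) (x k) ∧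
        (N : ℝ) ≤ fvx (S.F k) (s.Q.v k) (x k) + fhq (S.F k) (s.Q.v k) (x k).l + 1 / ((J k : ℝ) + 1) ∧
          G ≤ fvx (S.F k) (s.Q.v k) (x k) + 1 / ((J k : ℝ) + 1) := by
    filter_upwards [hJ2] with k hk
    have hk' := hk (J k) le_rfl
    have e : x k = hk'.choose := by
      rw [hx]
      exact dif_pos hk'
    rw [e]
    exact hk'.choose_spec
  have ht := inv_tendsto hJ
  have hA : (gaq s.Q D).Adf (fun i => (s.lf i).win 0) x := by
    intro η hη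
    filter_upwards [h1, ht.eventually (gt_mem_nhds hη)] with k a b
    exact a.1.mono b.le
  obtain ⟨h2, h3⟩ := fhq_UB s.Q (lb x)
  have h4 := vx_UB hA
  refine ⟨x, hA, ?_, ?_⟩
  · rw [h3, vol_eq]
    have h5 : (N : ℝ) ≤ ul (fun k => vx s.Q x k + fhq (S.F k) (s.Q.v k) ((lb x) k)) := by
      have h6 : Tendsto (fun k => (N : ℝ) - 1 / ((J k : ℝ) + 1)) UF (𝓝 N) := by
        have := ht.const_sub (N : ℝ)
        rwa [sub_zero] at this
      refine le_of_tendsto_of_tendsto h6 (ul_tendsto (h4.add h2)) ?_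
      filter_upwards [h1] with k hk
      have h7 : (N : ℝ) ≤ fvx (S.F k) (s.Q.v k) (x k) + fhq (S.F k) (s.Q.v k) (x k).l + 1 / ((J k : ℝ) + 1) := hk.2.1
      show (N : ℝ) - 1 / ((J k : ℝ) + 1) ≤ fvx (S.F k) (s.Q.v k) (x k) + fhq (S.F k) (s.Q.v k) (x k).l
      linarith
    rw [ul_add h4 h2] at h5
    linarith
  · rw [vol_eq]
    have h5 : G ≤ ul (fun k => vx s.Q x k) := by
      have h6 : Tendsto (fun k => G - 1 / ((J k : ℝ) + 1)) UF (𝓝 G) := by
        have := ht.const_sub G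
        rwa [sub_zero] at this
      refine le_of_tendsto_of_tendsto h6 (ul_tendsto h4) ?_
      filter_upwards [h1] with k hk
      have h7 : G ≤ fvx (S.F k) (s.Q.v k) (x k) + 1 / ((J k : ℝ) + 1) := hk.2.2
      show G - 1 / ((J k : ℝ) + 1) ≤ fvx (S.F k) (s.Q.v k) (x k)
      linarith
    linarith

end

end Pool.Agent.Helper36.FST
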