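import Pool.Agent.Helper15.FST.St
import Pool.Agent.Helper14.NHG.Cl
import Pool.Agent.Helper36.FST.Lim

/-! TRANSVERSALITY AT ALL LEVELS, beyond a threshold, as countably many approximate finite predicates. -/

set_option autoImplicit false

namespace Pool.Agent.Helper36.FST

open Finset Filter Topology Matrix Pool.Agent.Helper69.RK Pool.Agent.Helper31.EC Pool.Agent.Helper31.EC.Sp
open Pool.Agent.Helper40.EL Pool.Agent.Helper89.LX Pool.Agent.Helper84.MT Pool.Agent.Helper49.MD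
open Pool.Agent.Helper3.LF
open Pool.Agent.Helper38.NSL Pool.Agent.Helper48.NS Pool.Agent.Helper59.LF
open Pool.Agent.Helper14.NHG (wnO wn_ob)
open Pool.Agent.Helper29.MX (Rsl rbot)
open Pool.Agent.Helper15.FST (NHb)
open Pool.Agent.Helper52.SL (cellv_chg)

noncomputable section

variable {S T : Sp} {N D : ℕ} {E : ℕ → ℕ} {ι κ : Type}

/-- the same finite data -/
theorem hasE_congr {Ω : Type} {ft : Fintype Ω} {μ : Ω → ℝ} {nn : ∀ ω, 0 ≤ μ ω} {ms : mass μ = 1} {Z Z' : Setoid Ω}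
    {n n' : ℝ} {pos : 0 < n} {pos' : 0 < n'} (hZ : Z = Z') (hn : n = n') {Q : Ω → Fin N → ℝ} {W : κ → Setoid Ω}
    {e γ p : ℝ} (h : HasE ⟨Ω, ft, μ, nn, ms, Z, n, pos⟩ N D Q W e γ p) :
    HasE ⟨Ω, ft, μ, nn, ms, Z', n', pos'⟩ N D Q W e γ p := by
  subst hZ hn
  exact h

theorem hasE_lev {F : FSp} {b b' : ℝ} (h0 : 0 < b) (h0' : 0 < b') (hb : b = b') {Q : F.Ω → Fin N → ℝ}
    {W : κ → Setoid F.Ω} {e γ p : ℝ} (h : HasE (F.chg ⊤ b h0) N D Q W e γ p) :
    HasE (F.chg ⊤ b' h0') N D Q W e γ p := by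
  subst hb
  exact h

theorem hasE_chg2 {F : FSp} {b b' : ℝ} (h0 : 0 < b) (h0' : 0 < b') (hr : 0 < b / b') {Q : F.Ω → Fin N → ℝ}
    {W : κ → Setoid F.Ω} {e γ p : ℝ} (h : HasE (F.chg ⊤ b h0) N D Q W e γ p) :
    HasE ((F.chg ⊤ b' h0').chg ⊤ (b / b') hr) N D Q W e γ p :=
  hasE_congr (Z := ⊤ ⊓ F.Z) (n := b * F.n) (by
    show (⊤ : Setoid F.Ω) ⊓ F.Z = ⊤ ⊓ (⊤ ⊓ F.Z)
    rw [top_inf_eq, top_inf_eq]) (by
    show b * F.n = b / b' * (b' * F.n)
    field_simp) h

/-- the family: the finest resolution and the windows `0` of the types -/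
def wO (F : FSp) (X : FMs F.Ω N ι) : Option ι → Setoid F.Ω
  | none => ⊥
  | some i => wnO F X 0 i

/-- NO CLOSE FORMS at the level `b` -/
def nhA (N : ℕ) (ι : Type) (D : ℕ) (b : ℝ) (h0 : 0 < b) (g e p : ℝ) : AP (KM N ι) where
  P := fun F X δ => ¬ HasE (F.chg ⊤ b h0) N D (X : FMs F.Ω N ι).Q (wO F (X : FMs F.Ω N ι)) e
    (C3 N D * e + (g + δ) / b) p
  mono := fun F X δ δ' h hx hc => hx (hc.mono le_rfl (by
    have := div_le_div_of_nonneg_right (add_le_add_right h g) h0.le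
    linarith) le_rfl)

theorem wO_trn (s : MSys S N E ι) {b : ℝ} (h0 : 0 < b) (h1 : b ≤ 1) (k : ℕ) :
    (fun o => optW (S := S.chg S.tr b h0) (rbot (S.chg S.tr b h0)) (fun i : ι => wn (s.trn b h0 h1) 0 i) o k) =
      wO (S.F k) (ob s k : FMs (S.F k).Ω N ι) := by
  funext o
  cases o with
  | none => rfl
  | some i =>
    have e2 : ((s.lf i).Y.chg S.tr b h0).cellv 0 k = (s.lf i).Y.cellv (b * 0) k := cellv_chg (s.lf i).Y b h0 0 k
    rw [mul_zero] at e2
    exact congrArg (fun f => (s.lf i).La k ⊓ Setoid.ker f) e2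

theorem nhA_of {s : MSys S N E ι} {b g ε : ℝ} (h0 : 0 < b) (h1 : b ≤ 1) (h : NHb s (g + ε) b) {e p : ℝ} (he : 0 < e)
    (hp : 0 < p) : (nhA N ι D b h0 g e p).pd ε S (ob s) := by
  intro δ hδ
  have h2 : C3 N D * e + (g + ε) / b < C3 N D * e + (g + δ) / b := by
    have := div_lt_div_of_pos_right (show g + ε < g + δ by linarith) h0
    linarith
  filter_upwards [h h0 h1 D e _ p he h2 hp] with k hk hc
  apply hk
  have e1 := wO_trn s h0 h1 k
  rw [e1]
  exact hc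

/-- TRANSVERSALITY AT ALL REAL LEVELS from rational data -/
theorem nhA_to {s : MSys S N E ι} {X : (KM N ι).Ob S} (hX : ∀ᶠ k in UF, ob s k = X k) {f : ℝ → ℝ} {b : ℝ} (h0 : 0 < b)
    (h1 : b ≤ 1) (hf : b < 1 → ContinuousWithinAt f (Set.Ioi b) b)
    (h : ∀ (b' e p : ℚ) (hb : (0 : ℝ) < b'), (b' : ℝ) ≤ 1 → (0 : ℝ) < e → (0 : ℝ) < p →
      (nhA N ι D b' hb (f b') e p).pd 0 S X) :
    NHEt (s.trn b h0 h1).Q D (optW (rbot (S.chg S.tr b h0)) fun i : ι => wn (s.trn b h0 h1) 0 i) (C3 N D)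
      (f b / b) := by
  intro e γ p he hγ hp
  have hK := C3_nonneg N D
  obtain ⟨η, hη, hη2⟩ : ∃ η, 0 < η ∧ C3 N D * e + f b / b + 3 * η < γ :=
    ⟨(γ - (C3 N D * e + f b / b)) / 4, by linarith, by linarith⟩
  obtain ⟨e', he1, he2⟩ := exists_rat_btwn (show e < e + η / (C3 N D + 1) by
    have : 0 < η / (C3 N D + 1) := div_pos hη (by linarith)
    linarith)
  obtain ⟨p', hp1, hp2⟩ := exists_rat_btwn hp
  have he3 : C3 N D * e' ≤ C3 N D * e + η := by
    have h2 := mul_le_mul_of_nonneg_left he2.le hK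
    have h3 : C3 N D * (η / (C3 N D + 1)) ≤ η := by
      rw [mul_div_assoc', div_le_iff₀ (by linarith)]
      nlinarith
    linarith
  rcases eq_or_lt_of_le h1 with rfl | hb
  · have hp0 : (0 : ℝ) < ((1 : ℚ) : ℝ) := by norm_num
    have h2 := h 1 e' p' hp0 (by norm_num) (he.trans he1) hp1 η hη
    filter_upwards [h2, hX] with k a c hc
    apply a
    have e1 := wO_trn s h0 h1 k
    rw [e1] at hc
    rw [← c]
    have h3 : HasE ((S.F k).chg ⊤ ((1 : ℚ) : ℝ) hp0) N D (s.Q.v k) (wO (S.F k) (ob s k : FMs (S.F k).Ω N ι)) e γ p :=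
      hasE_lev h0 hp0 (by norm_num) hc
    refine h3.mono he1.le ?_ hp2.le
    rw [Rat.cast_one]
    rw [div_one] at hη2 ⊢
    linarith
  · have hφ : Tendsto (fun y : ℝ => γ * (b / y) - f y / y) (𝓝[>] b) (𝓝 (γ * (b / b) - f b / b)) := by
      have t0 : Tendsto (fun y : ℝ => y) (𝓝[>] b) (𝓝 b) := tendsto_nhdsWithin_of_tendsto_nhds tendsto_id
      exact ((tendsto_const_nhds.div t0 h0.ne').const_mul γ).sub ((hf hb).tendsto.div t0 h0.ne')
    rw [div_self h0.ne', mul_one] at hφ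
    have h2 : ∀ᶠ y in 𝓝[>] b, C3 N D * e' + η < γ * (b / y) - f y / y := hφ.eventually (lt_mem_nhds (by linarith))
    have h3 : ∀ᶠ y in 𝓝[>] b, y ∈ Set.Ioo b 1 := Ioo_mem_nhdsGT hb
    obtain ⟨u, hu, hu2⟩ := (mem_nhdsGT_iff_exists_Ioo_subset).mp (h2.and h3)
    obtain ⟨b', hb1, hb2⟩ := exists_rat_btwn (Set.mem_Ioi.mp hu)
    obtain ⟨h4, h5, h6⟩ := hu2 ⟨hb1, hb2⟩
    have hb0 : (0 : ℝ) < b' := h0.trans hb1
    have hr0 : 0 < b / b' := div_pos h0 hb0
    have hr1 : b / b' < 1 := (div_lt_one hb0).mpr hb1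
    have hcT : (0 : ℝ) ≤ cT N D := by
      unfold cT
      have := nn_one N D
      positivity
    have hcT2 : (0 : ℝ) ≤ cT2 N D := by
      unfold cT2 shC
      have := nn_one N D
      positivity
    have h7 : 0 < ((e' : ℝ) - e) * b' := mul_pos (by linarith) hb0
    have h8 : 0 < (2 * (D : ℝ) + 1 + 1) * (1 - b / b') * b' := by
      have : 0 < 1 - b / b' := by linarith
      positivity
    filter_upwards [h b' e' p' hb0 h6.le (he.trans he1) hp1 (η * b) (mul_pos hη h0), hX,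
      (S.Sub_const hcT).eventually_le h7, (S.Sub_const hcT2).eventually_le h8] with k a c d d' hc
    apply a
    have e1 := wO_trn s h0 h1 k
    rw [e1] at hc
    rw [← c]
    have h9 := HasE.untrn (F := (S.F k).chg ⊤ b' hb0) hr0 hr1 (show 0 ≤ (e' : ℝ) - e by linarith)
      (by
        refine (show cT N D ≤ cT N D + 2 by linarith).trans (d.trans (le_of_eq ?_))
        congr 1
        show ((e' : ℝ) - e) * b' * (S.F k).n = (e' - e) * (b' * (S.F k).n)
        ring)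
      (by
        refine (show cT2 N D ≤ cT2 N D + 2 by linarith).trans (d'.trans (le_of_eq ?_))
        congr 1
        show (2 * (D : ℝ) + 1 + 1) * (1 - b / b') * b' * (S.F k).n = (2 * (D : ℝ) + 1 + 1) * (1 - b / b') * (b' * (S.F k).n)
        ring) (hasE_chg2 h0 hb0 hr0 hc)
    refine h9.mono ?_ ?_ hp2.le
    · have h10 : e * (b / b') ≤ e * 1 := mul_le_mul_of_nonneg_left hr1.le he.le
      linarith
    · have h10 : (f b' + η * b) / b' = f b' / b' + η * (b / b') := by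
        field_simp
      have h11 : η * (b / b') ≤ η * 1 := mul_le_mul_of_nonneg_left hr1.le hη.le
      rw [h10]
      linarith

end

end Pool.Agent.Helper36.FST
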